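import Pool.Agent.MP_26cd3b_lc.H27.Inst
import Pool.Agent.MP_26cd3b_lc.H27.TreeReal
import Pool.Agent.MP_26cd3b_lc.H53.CellS
import Pool.Agent.MP_26cd3b_lc.H80.CellsGA

set_option autoImplicit false

namespace Pool.Agent.MP_26cd3b_lc.H39

open Pool.Agent.MP_26cd3b_lc.H27 Submodule

/-- the pyramid over a configuration -/
def lift (r : ℕ) (y : Lb → Fin 5 → ℝ) (a : Lb) : (Fin 5 → ℝ) × (Fin (r + 1) → ℝ) :=
  if a.1 = 1 then (0, fun j => if j.1 = a.2 then 1 else 0) else (y a, 0)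

theorem lift_ne {r : ℕ} {y : Lb → Fin 5 → ℝ} {a : Lb} (h : a.1 ≠ 1) : lift r y a = (y a, 0) :=
  if_neg h

theorem lift_apex {r : ℕ} {y : Lb → Fin 5 → ℝ} (i : ℕ) :
    lift r y (1, i) = (0, fun j => if j.1 = i then 1 else 0) := if_pos rfl

theorem lab0_ne {N : ℕ} {a : Lb} (h : a ∈ lab0 N) : a.1 ≠ 1 := by
  rcases mem_lab0.1 h with h | h <;> omega

theorem face_lift {r N : ℕ} {y : Lb → Fin 5 → ℝ} {S : Set Lb} :
    Face (lab0 N ∪ apx r) (lift r y) S ↔ Face (lab0 N) y S := by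
  classical
  constructor
  · rintro ⟨φ, h⟩
    refine ⟨φ ∘ₗ LinearMap.inl ℝ _ _, fun a ha => ?_⟩
    have := h a (Finset.mem_union_left _ ha)
    rwa [lift_ne (lab0_ne ha)] at this
  · rintro ⟨φ, h⟩
    refine ⟨φ ∘ₗ LinearMap.fst ℝ _ _ + (∑ j : Fin (r + 1), (if ((1, j.1) : Lb) ∈ S then (0 : ℝ) else 1) •
      LinearMap.proj j) ∘ₗ LinearMap.snd ℝ _ _, fun a ha => ?_⟩
    rcases Finset.mem_union.1 ha with ha | ha
    · rw [lift_ne (lab0_ne ha)]
      simpa using h a ha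
    · obtain ⟨p, q⟩ := a
      obtain ⟨rfl, hq⟩ : p = 1 ∧ q ≤ r := mem_apx.1 ha
      rw [lift_apex]
      simp only [LinearMap.add_apply, LinearMap.comp_apply, LinearMap.fst_apply, map_zero,
        LinearMap.snd_apply, zero_add, LinearMap.sum_apply, LinearMap.smul_apply,
        LinearMap.proj_apply, smul_eq_mul]
      rw [Finset.sum_eq_single (⟨q, by omega⟩ : Fin (r + 1))]
      · by_cases e : ((1, q) : Lb) ∈ S <;> simp [e]
      · intro j _ hj
        rw [if_neg (fun e : j.1 = q => hj (Fin.ext e)), mul_zero]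
      · simp

theorem pyr {r N : ℕ} {y : Lb → Fin 5 → ℝ} (hv : Vx (lab0 N) y) :
    Vx (lab0 N ∪ apx r) (lift r y) ∧ ∀ a b, Ed (lab0 N ∪ apx r) (lift r y) a b ↔
      a ∈ lab0 N ∪ apx r ∧ b ∈ lab0 N ∪ apx r ∧ a ≠ b ∧
        (a ∈ lab0 N → b ∈ lab0 N → Ed (lab0 N) y a b) := by
  have h0 : Face (lab0 N) y ∅ := by
    obtain ⟨θ, h⟩ := hv.pointed (a := (0, 0)) (b := (0, 1)) (by simp [mem_lab0])
      (by simp [mem_lab0]) (by simp)
    exact ⟨θ, fun a ha => ⟨(h a ha).le, by simp [(h a ha).ne']⟩⟩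
  have h1 : ∀ a, Face (lab0 N) y {a} := fun a => by
    by_cases e : a ∈ lab0 N
    · exact hv a e
    · exact h0.congr fun c hc => ⟨False.elim, fun g => e (g ▸ hc)⟩
  refine ⟨fun a _ => face_lift.2 (h1 a), fun a b => ?_⟩
  rw [Ed, face_lift]
  refine and_congr_right fun ha => and_congr_right fun hb => and_congr_right fun hab => ?_
  refine ⟨fun g ha hb => ⟨ha, hb, hab, g⟩, fun g => ?_⟩
  by_cases ea : a ∈ lab0 N
  · by_cases eb : b ∈ lab0 N
    · exact (g ea eb).2.2.2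
    · exact (h1 a).congr fun c hc => ⟨Or.inl, fun k => k.elim id fun k => absurd (k ▸ hc) eb⟩
  · exact (h1 b).congr fun c hc => ⟨Or.inr, fun k => k.elim (fun k => absurd (k ▸ hc) ea) id⟩

def f1 (l : ℕ) : ℝ := if l = 0 ∨ l = 2 ∨ l = 4 then 1 else 0

noncomputable def f3 (a : ℝ) (l : ℕ) : ℝ := if l = 1 ∨ l = 3 then a else if l = 2 then 1 else 0

def corner (j : ℕ) : Fin 5 → ℝ :=
  if j = 0 then ![0, 0, 1, 0, 0] else if j = 1 then ![0, 0, 0, 1, 0] else ![0, 0, 0, 0, 1]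

noncomputable def spV (n : ℕ) (qs : List Quad) (t : ℕ → ℝ) (v l : ℕ) : Fin 5 → ℝ :=
  ![pX n l, pY n t l, fS n t (inS qs (v + 1)) l, fS n t (inS qs v) l, fS n t (fun _ => True) l]

noncomputable def adV (n : ℕ) (qs : List Quad) (t : ℕ → ℝ) (i l : ℕ) : Fin 5 → ℝ :=
  ![pX n (lvq n (qd qs i) l), pY n t (lvq n (qd qs i) l), f1 l,
    fS n t (inS qs (2 * i + 2)) (lvq n (qd qs i) l), fS n t (inS qs (2 * i + 2 + 1)) (lvq n (qd qs i) l)]

noncomputable def gaV (n : ℕ) (qs : List Quad) (t : ℕ → ℝ) (i l : ℕ) : Fin 5 → ℝ :=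
  ![pX n (lvq n (qd qs i) l), pY n t (lvq n (qd qs i) l), f3 (t (qd qs i).1 / t (qd qs i).2.1) l,
    fS n t (inS qs (2 * i + 2)) (lvq n (qd qs i) l), f1 l]

noncomputable def y0 (n : ℕ) (qs : List Quad) (t : ℕ → ℝ) (v : ℕ) (a : Lb) : Fin 5 → ℝ :=
  if a.1 = 0 then corner a.2 else if v ≤ 2 * qs.length then spV n qs t v a.2
    else if v ≤ 3 * qs.length then adV n qs t (v - 2 * qs.length - 1) a.2
    else gaV n qs t (v - 3 * qs.length - 1) a.2

section

variable {n : ℕ} {qs : List Quad} {t : ℕ → ℝ}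

theorem y0_corner (v j : ℕ) : y0 n qs t v (0, j) = corner j := if_pos rfl

theorem y0_sp {v : ℕ} (h : v ≤ 2 * qs.length) (l : ℕ) : y0 n qs t v (2, l) = spV n qs t v l := by
  simp [y0, h]

theorem y0_ad {v : ℕ} (h : ¬ v ≤ 2 * qs.length) (h' : v ≤ 3 * qs.length) (l : ℕ) :
    y0 n qs t v (2, l) = adV n qs t (v - 2 * qs.length - 1) l := by
  simp [y0, h, h']

theorem y0_ga {v : ℕ} (h' : ¬ v ≤ 3 * qs.length) (l : ℕ) :
    y0 n qs t v (2, l) = gaV n qs t (v - 3 * qs.length - 1) l := by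
  have h : ¬ v ≤ 2 * qs.length := by omega
  simp [y0, h, h']

theorem corners (v : ℕ) : Corners (y0 n qs t v) := by
  simp [Corners, y0_corner, corner]

theorem fS_even (h : WF n qs) {i : ℕ} (hi : i < qs.length) (l : ℕ) :
    fS n t (inS qs (2 * i + 2)) l = max (pY n t l - t (qd qs i).2.1 * pX n l) 0 +
      max (pY n t l - t (qd qs i).2.2.2 * pX n l) 0 := by
  classical
  obtain ⟨q1, q2, q3, q4, q5⟩ := h.2 _ (qd_mem hi)
  rw [← Finset.sum_pair (f := fun j => max (pY n t l - t j * pX n l) 0) (by omega), fS]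
  refine Finset.sum_congr ?_ fun _ _ => rfl
  ext j
  simp only [Finset.mem_filter, Finset.mem_Icc, inS, show (2 * i + 2) / 2 - 1 = i by omega,
    Finset.mem_insert, Finset.mem_singleton]
  omega

theorem fS_odd (h : WF n qs) {i : ℕ} (hi : i < qs.length) (l : ℕ) :
    fS n t (inS qs (2 * i + 2 + 1)) l = max (pY n t l - t (qd qs i).1 * pX n l) 0 +
      (max (pY n t l - t (qd qs i).2.1 * pX n l) 0 + (max (pY n t l - t (qd qs i).2.2.1 * pX n l) 0 +
      max (pY n t l - t (qd qs i).2.2.2 * pX n l) 0)) := by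
  classical
  obtain ⟨q1, q2, q3, q4, q5⟩ := h.2 _ (qd_mem hi)
  rw [← Finset.sum_pair (f := fun j => max (pY n t l - t j * pX n l) 0) (by omega),
    ← Finset.sum_insert (f := fun j => max (pY n t l - t j * pX n l) 0) (by simp; omega),
    ← Finset.sum_insert (f := fun j => max (pY n t l - t j * pX n l) 0) (by simp; omega), fS]
  refine Finset.sum_congr ?_ fun _ _ => rfl
  ext j
  simp only [Finset.mem_filter, Finset.mem_Icc, inS, show (2 * i + 2 + 1) / 2 - 1 = i by omega,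
    Finset.mem_insert, Finset.mem_singleton]
  omega

theorem lv (h : WF n qs) (t0 : t 0 = 0) {i : ℕ} (hi : i < qs.length) :
    (pX n (lvq n (qd qs i) 0) = 1 ∧ pY n t (lvq n (qd qs i) 0) = 0) ∧
    (pX n (lvq n (qd qs i) 1) = 1 ∧ pY n t (lvq n (qd qs i) 1) = t (qd qs i).1) ∧
    (pX n (lvq n (qd qs i) 2) = 1 ∧ pY n t (lvq n (qd qs i) 2) = t (qd qs i).2.1) ∧
    (pX n (lvq n (qd qs i) 3) = 1 ∧ pY n t (lvq n (qd qs i) 3) = t (qd qs i).2.2.1) ∧
    (pX n (lvq n (qd qs i) 4) = 1 ∧ pY n t (lvq n (qd qs i) 4) = t (qd qs i).2.2.2) ∧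
    (pX n (lvq n (qd qs i) 5) = 0 ∧ pY n t (lvq n (qd qs i) 5) = 1) := by
  obtain ⟨q1, q2, q3, q4, q5⟩ := h.2 _ (qd_mem hi)
  have a1 : (qd qs i).1 ≤ n := by omega
  have b1 : (qd qs i).2.1 ≤ n := by omega
  have c1 : (qd qs i).2.2.1 ≤ n := by omega
  simp [lvq, pX, pY, a1, b1, c1, q5, t0]

theorem mx {a b : ℝ} (h : a ≤ b) : max (a - b * 1) 0 = 0 ∧ max (b - a * 1) 0 = b - a :=
  ⟨max_eq_right (by linarith), by rw [mul_one]; exact max_eq_left (by linarith)⟩

theorem cell0 (h : WF n qs) (t0 : t 0 = 0) (ht : StrictMonoOn t (Set.Iic n)) (hs : ESat qs t)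
    {v : ℕ} (hv : v < 4 * qs.length + 1) : Vx (lab0 (cN n qs.length v)) (y0 n qs t v) ∧ ∀ a b,
      adj0 (cN n qs.length v) (cEs n qs v) (cCh qs.length v) a b ↔
        Ed (lab0 (cN n qs.length v)) (y0 n qs t v) a b := by
  by_cases e1 : v ≤ 2 * qs.length
  · rw [cN, if_pos e1, show cEs n qs v = fun j i => j ≠ 2 ∨ i = 0 ∨ i = n + 1 ∨ inS qs (v + 1) i ∨
      inS qs v i from funext₂ fun j i => if_pos e1, show cCh qs.length v = fun _ _ => False from
      funext₂ fun j i => by simp [cCh, e1.not_gt]]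
    exact H53.spine_cell t0 ht _ _ (corners v) fun l _ => y0_sp e1 l
  have key : ∀ i < qs.length, 0 < t (qd qs i).1 ∧ t (qd qs i).1 < t (qd qs i).2.1 ∧
      t (qd qs i).2.1 < t (qd qs i).2.2.1 ∧ t (qd qs i).2.2.1 < t (qd qs i).2.2.2 := fun i hi => by
    obtain ⟨q1, q2, q3, q4, q5⟩ := h.2 _ (qd_mem hi)
    refine ⟨t0 ▸ ht ?_ ?_ ?_, ht ?_ ?_ ?_, ht ?_ ?_ ?_, ht ?_ ?_ ?_⟩ <;>
      first | (rw [Set.mem_Iic]; omega) | omega
  rw [cN, if_neg e1]
  by_cases e2 : v ≤ 3 * qs.length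
  · rw [show cEs n qs v = fun _ _ => True from funext₂ fun j i => by simp [cEs, e1, e2],
      show cCh qs.length v = chA from funext₂ fun j i => by
        simp [cCh, not_le.1 e1, e2.not_gt]]
    have hi : v - 2 * qs.length - 1 < qs.length := by omega
    obtain ⟨k1, k2, k3, k4⟩ := key _ hi
    obtain ⟨v0, v1, v2, v3, v4, v5⟩ := lv (t := t) h t0 hi
    have k5 := k1.trans k2
    have k6 := k2.trans k3
    have k7 := k3.trans k4
    have k8 := k5.trans k3
    have k9 := k6.trans k4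
    have k10 := k8.trans k4
    refine H80.adapter_cell k1 k2 k3 k4 (corners v) ?_ ?_ ?_ ?_ ?_ ?_ <;>
      simp only [y0_ad e1 e2, adV, fS_even h hi, fS_odd h hi, v0, v1, v2, v3, v4, v5, mx k1.le,
        mx k2.le, mx k3.le, mx k4.le, mx k5.le, mx k6.le, mx k7.le, mx k8.le, mx k9.le, mx k10.le,
        (mx le_rfl).1] <;> norm_num [f1, add_assoc]
  · rw [show cEs n qs v = esG from funext₂ fun j i => by simp [cEs, e1, e2],
      show cCh qs.length v = chG from funext₂ fun j i => by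
        simp [cCh, chG, not_le.1 e1, not_le.1 e2]]
    have hi : v - 3 * qs.length - 1 < qs.length := by omega
    obtain ⟨k1, k2, k3, k4⟩ := key _ hi
    obtain ⟨v0, v1, v2, v3, v4, v5⟩ := lv (t := t) h t0 hi
    have k5 := k1.trans k2
    have k6 := k2.trans k3
    have k7 := k3.trans k4
    have k8 := k5.trans k3
    have k9 := k6.trans k4
    have k10 := k8.trans k4
    refine H80.gadget_cell k1 k2 k3 k4 (hs _ (qd_mem hi)) (corners v) ?_ ?_ ?_ ?_ ?_ ?_ <;>
      simp only [y0_ga e2, gaV, fS_even h hi, v0, v1, v2, v3, v4, v5, mx k2.le, mx k3.le, mx k4.le,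
        mx k5.le, mx k7.le, mx k9.le, mx k10.le, (mx le_rfl).1] <;> norm_num [f1, f3]

/-- the turn along the spine -/
def jS : (Fin 5 → ℝ) ≃ₗ[ℝ] (Fin 5 → ℝ) where
  toFun x := ![x 0, x 1, x 3, -x 2, x 4]
  invFun x := ![x 0, x 1, -x 3, x 2, x 4]
  map_add' x y := by ext i; fin_cases i <;> simp [add_comm]
  map_smul' c x := by ext i; fin_cases i <;> simp
  left_inv x := by ext i; fin_cases i <;> simp
  right_inv x := by ext i; fin_cases i <;> simp

/-- the turn off the spine -/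
def jA : (Fin 5 → ℝ) ≃ₗ[ℝ] (Fin 5 → ℝ) where
  toFun x := ![x 0, x 1, x 4, x 3, -x 2]
  invFun x := ![x 0, x 1, -x 4, x 3, x 2]
  map_add' x y := by ext i; fin_cases i <;> simp [add_comm]
  map_smul' c x := by ext i; fin_cases i <;> simp
  left_inv x := by ext i; fin_cases i <;> simp
  right_inv x := by ext i; fin_cases i <;> simp

theorem jS_apply (a b c d e : ℝ) : jS ![a, b, c, d, e] = ![a, b, d, -c, e] := rfl

theorem jA_apply (a b c d e : ℝ) : jA ![a, b, c, d, e] = ![a, b, e, d, -c] := rfl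

theorem wall0 {v : ℕ} (h0 : 0 < v) (hv : v < 4 * qs.length + 1) :
    ∃ J : (Fin 5 → ℝ) ≃ₗ[ℝ] (Fin 5 → ℝ), J (corner 0) = -corner (cDn qs.length v).2 ∧
      (∀ i < 3, 0 ≠ i → J (corner i) = corner (cMt n qs v (0, i)).2) ∧ ∀ i, ∃ s : ℝ,
        J (y0 n qs t v (2, i)) = y0 n qs t (cPar qs.length v) (cMt n qs v (2, i)) +
          s • corner (cDn qs.length v).2 := by
  by_cases e1 : v ≤ 2 * qs.length
  · refine ⟨jS, by simp [cDn, e1, corner, jS_apply], fun i hi hi' => ?_, fun i => ?_⟩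
    · interval_cases i <;> simp_all [cMt_corner, cDn, corner, jS_apply, up]
    · rw [cMt_level, if_neg (by omega), cPar, if_pos e1, y0_sp e1, y0_sp (by omega), spV, spV,
        Nat.sub_add_cancel h0, jS_apply]
      refine ⟨-fS n t (inS qs (v + 1)) i - fS n t (inS qs (v - 1)) i, ?_⟩
      simp [cDn, e1, corner]
  refine ⟨jA, by simp [cDn, e1, corner, jA_apply], fun i hi hi' => ?_, fun i => ?_⟩
  · interval_cases i <;> simp [cMt_corner, cDn, corner, jA_apply, up, e1] at hi' ⊢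
  by_cases e2 : v ≤ 3 * qs.length
  · rw [cMt_level, if_pos (by omega), cPar, if_neg e1, if_pos e2, y0_ad e1 e2, y0_sp (by omega), spV,
      adV, show 2 * (v - 2 * qs.length) = 2 * (v - 2 * qs.length - 1) + 2 by omega, jA_apply]
    refine ⟨-f1 i - fS n t (fun _ => True) (lvq n (qd qs (v - 2 * qs.length - 1)) i), ?_⟩
    simp [cDn, e1, corner]
  · rw [cMt_level, if_neg (by omega), cPar, if_neg e1, if_neg e2, y0_ga e2,
      y0_ad (by omega) (by omega), gaV, adV,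
      show v - qs.length - 2 * qs.length - 1 = v - 3 * qs.length - 1 by omega, jA_apply]
    refine ⟨-f3 (t (qd qs (v - 3 * qs.length - 1)).1 / t (qd qs (v - 3 * qs.length - 1)).2.1) i -
      fS n t (inS qs (2 * (v - 3 * qs.length - 1) + 2 + 1))
        (lvq n (qd qs (v - 3 * qs.length - 1)) i), ?_⟩
    simp [cDn, e1, corner]

theorem span0 (r : ℕ) (t0 : t 0 = 0) :
    span ℝ (lift r (y0 n qs t 0) '' cLab r n qs.length 0) = ⊤ := by
  have m : ∀ a ∈ cLab r n qs.length 0, lift r (y0 n qs t 0) a ∈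
      span ℝ (lift r (y0 n qs t 0) '' cLab r n qs.length 0) := fun a ha => subset_span ⟨a, ha, rfl⟩
  have m0 := m (0, 0) (by simp [mem_cLab])
  have m1 := m (0, 1) (by simp [mem_cLab])
  have m2 := m (0, 2) (by simp [mem_cLab])
  have m3 := m (2, 0) (by simp [mem_cLab, cN])
  have m4 := m (2, n + 1) (by simp [mem_cLab, cN])
  have m5 := fun j : Fin (r + 1) => m (1, j.1) (by simp [mem_cLab, Nat.lt_succ_iff.1 j.2])
  simp only [lift_apex] at m5
  rw [lift_ne (by simp), y0_corner] at m0 m1 m2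
  rw [lift_ne (by simp), y0_sp (Nat.zero_le _), spV] at m3 m4
  generalize span ℝ (lift r (y0 n qs t 0) '' cLab r n qs.length 0) = U at *
  generalize fS n t (inS qs (0 + 1)) = a at *
  generalize fS n t (inS qs 0) = b at *
  generalize fS n t (fun _ => True) = c at *
  rw [eq_top_iff]
  rintro ⟨u, w⟩ -
  convert U.add_mem (U.add_mem (U.add_mem (U.add_mem (U.add_mem (U.smul_mem (u 0) m3)
    (U.smul_mem (u 1) m4)) (U.smul_mem (u 2 - u 0 * a 0 - u 1 * a (n + 1)) m0))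
    (U.smul_mem (u 3 - u 0 * b 0 - u 1 * b (n + 1)) m1))
    (U.smul_mem (u 4 - u 0 * c 0 - u 1 * c (n + 1)) m2))
    (U.sum_mem (t := Finset.univ) fun j _ => U.smul_mem (w j) (m5 j)) using 1
  refine Prod.ext ?_ ?_
  · ext i
    fin_cases i <;> simp [Prod.fst_sum, pX, pY, t0, corner]
  · ext i
    simp [Prod.snd_sum, Finset.sum_apply, Fin.val_inj]

end

theorem inst_real (r : ℕ) {n : ℕ} {qs : List Quad} (h : WF n qs) {t : ℕ → ℝ} (t0 : t 0 = 0)
    (ht : StrictMonoOn t (Set.Iic n)) (hs : ESat qs t) :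
    ∃ (y : ℕ → Lb → (Fin 5 → ℝ) × (Fin (r + 1) → ℝ))
      (ν : ((Fin 5 → ℝ) × (Fin (r + 1) → ℝ)) →ₗ[ℝ] ℝ), Local (inst r n qs h) y ν ∧
        (∀ v < (inst r n qs h).m, ∀ a ∈ (inst r n qs h).lab v, a ≠ (1, 0) → ν (y v a) = 0) ∧
        ∀ v < (inst r n qs h).m, 0 < ν (y v (1, 0)) := by
  refine ⟨fun v => lift r (y0 n qs t v), LinearMap.proj 0 ∘ₗ LinearMap.snd ℝ _ _,
    ⟨fun v hv => (pyr (cell0 h t0 ht hs hv).1).1, fun v hv a b => ?_, fun v _ _ => ?_,
      fun v h0 hv => ?_, span0 r t0, fun v _ _ => ⟨(1, 0), cAdj_apex (by simp [mem_cLab, up])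
        (by simp [mem_cLab]) (by simp [up]) (Or.inr rfl)⟩⟩, fun v _ a _ e => ?_,
    fun v _ => by simp [lift_apex]⟩
  · refine Iff.trans ?_ ((pyr (cell0 h t0 ht hs hv).1).2 a b).symm
    refine and_congr_right fun ha => and_congr_right fun hb => and_congr_right fun hab => ?_
    refine ⟨fun g ha hb => ((cell0 h t0 ht hs hv).2 a b).1 ⟨ha, hb, hab, g⟩, fun g => ?_⟩
    by_cases e : a.1 = 1 ∨ b.1 = 1
    · exact (cAdj_apex ha hb hab e).2.2.2
    · exact (((cell0 h t0 ht hs hv).2 a b).2 (g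
        ((Finset.mem_union.1 ha).resolve_right fun k => e (Or.inl (mem_apx.1 k).1))
        ((Finset.mem_union.1 hb).resolve_right fun k => e (Or.inr (mem_apx.1 k).1)))).2.2.2
  · obtain ⟨j, -, -, e, -⟩ := cDn_eq qs.length v
    change (lift r _ (cDn qs.length v)).2 0 = 0
    rw [e, lift_ne (by simp)]
    rfl
  · obtain ⟨J, g1, g2, g3⟩ := wall0 (n := n) (qs := qs) (t := t) h0 hv
    obtain ⟨j, -, -, e, -⟩ := cDn_eq qs.length v
    have e' : lift r (y0 n qs t (cPar qs.length v)) (cDn qs.length v) =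
        (corner (cDn qs.length v).2, 0) := by rw [e, lift_ne (by simp), y0_corner]
    refine ⟨J.prodCongr (LinearEquiv.refl ℝ _), ?_, fun x => rfl, fun b hb => ?_⟩
    · change J.prodCongr (LinearEquiv.refl ℝ _) (lift r _ (0, 0)) =
        -lift r (y0 n qs t (cPar qs.length v)) (cDn qs.length v)
      rw [e', lift_ne (by simp), y0_corner]
      simp [g1]
    · change ∃ s : ℝ, J.prodCongr (LinearEquiv.refl ℝ _) (lift r _ b) =
        lift r (y0 n qs t (cPar qs.length v)) (cMt n qs v b) +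
          s • lift r (y0 n qs t (cPar qs.length v)) (cDn qs.length v)
      rw [e']
      rcases up_cases hb with ⟨i, k1, k2, rfl⟩ | ⟨i, k1, rfl⟩ | ⟨i, k1, k2, rfl⟩
      · refine ⟨0, ?_⟩
        have : cMt n qs v (0, i) = (0, (cMt n qs v (0, i)).2) := by
          rw [cMt_corner]; split_ifs <;> rfl
        rw [this, lift_ne (by simp), lift_ne (by simp), y0_corner, y0_corner, ← g2 i k1 k2]
        simp
      · exact ⟨0, by simp [cMt_apex, lift_apex]⟩
      · obtain ⟨s, hs⟩ := g3 i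
        refine ⟨s, ?_⟩
        rw [lift_ne (by simp), lift_ne (by simp [cMt_level])]
        simp [hs]
  · obtain ⟨p, q⟩ := a
    by_cases e1 : p = 1
    · subst e1
      have : ¬ 0 = q := fun k => e (k ▸ rfl)
      simp [lift_apex, this]
    · simp [lift_ne (a := (p, q)) e1]

end Pool.Agent.MP_26cd3b_lc.H39
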